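import Mathlib
import Pool.Agent.Helper76_TOR.TwQ
import Pool.Agent.Helper58_TNF.Tht
import Pool.Agent.Helper20_TOW.The

/-! TOW: the homomorphism to the standard mapping class group, and its action on homology. -/

set_option autoImplicit false

namespace Pool.Agent.TOW.H58

open FreeGroup Pool.Agent.TST Pool.Agent.TOR Pool.Agent.TOR.H59 Pool.Agent.TOR96
open Pool.Agent.TOR.H29 Pool.Agent.TOR.SA Pool.Agent.TNF Pool.Agent.TNF.H58

/-! ### letters -/

instance finLt (g : ℕ) : ∀ j, Finite (Lt g j)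
  | 0 => inferInstanceAs (Finite (Fin 2 × Fin (g + 1)))
  | j + 1 => by
    have := finLt g j
    exact inferInstanceAs (Finite (Option (Lt g j)))

/-- letters of the near block -/
def ij (g : ℕ) : ∀ j, Fin 2 × Fin (g + 1) → Lt g j
  | 0 => id
  | j + 1 => fun l => some (ij g j l)

theorem io_of (g : ℕ) : ∀ (j : ℕ) (l : Fin 2 × Fin (g + 1)), io g j (of l) = of (ij g j l)
  | 0, _ => rfl
  | j + 1, l => by
    change inc (io g j (of l)) = of (some (ij g j l))
    rw [io_of g j l, inc_of]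

theorem io_map (g j : ℕ) (x : FreeGroup (Fin 2 × Fin (g + 1))) :
    io g j x = FreeGroup.map (ij g j) x := by
  have : io g j = FreeGroup.map (ij g j) := fx fun l => by rw [io_of, mof]
  rw [this]

theorem bj_ij (g : ℕ) : ∀ j, bj g j = ij g j (1, Fin.last g)
  | 0 => rfl
  | j + 1 => congrArg some (bj_ij g j)

theorem hj_ne_ij (g : ℕ) : ∀ (j : ℕ) (h : Ho j) (l : Fin 2 × Fin (g + 1)), hj g j h ≠ ij g j l
  | 0, h, _ => Empty.elim h
  | _ + 1, none, _ => fun e => Option.some_ne_none _ e.symm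
  | j + 1, some h, l => fun e => hj_ne_ij g j h l (Option.some.inj e)

theorem hj_inj (g : ℕ) : ∀ j, Function.Injective (hj g j)
  | 0 => fun h => Empty.elim h
  | j + 1 => Option.map_injective (hj_inj g j)

theorem hk_bij : ∀ j, Function.Bijective (hk j)
  | 0 => ⟨fun i => i.elim0, fun h => Empty.elim h⟩
  | j + 1 => by
    constructor
    · intro a b hab
      induction a using Fin.cases with
      | zero =>
        induction b using Fin.cases with
        | zero => rfl
        | succ b => exact absurd hab.symm (Option.some_ne_none _)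
      | succ a =>
        induction b using Fin.cases with
        | zero => exact absurd hab (Option.some_ne_none _)
        | succ b => exact congrArg Fin.succ ((hk_bij j).1 (Option.some.inj hab))
    · rintro (_ | h)
      · exact ⟨0, rfl⟩
      · obtain ⟨i, rfl⟩ := (hk_bij j).2 h
        exact ⟨i.succ, rfl⟩

/-! ### the boundary word -/

theorem em_jn {α η : Type} (u : FreeGroup α) :
    em (jn η u) = (jn (Option η) (inc u) : FreeGroup (Option α ⊕ Option η)) := by
  have : (em (α := α) (η := η)).comp (jn η) = (jn (Option η)).comp inc := fx fun a => by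
    rw [MonoidHom.comp_apply, MonoidHom.comp_apply, mof, inc_of, mof, em, mof]
    rfl
  exact DFunLike.congr_fun this u

theorem em_zh {α η : Type} (hl : η → α) (h : η) :
    em (zh hl h) = zh (Option.map hl) (some h) := by
  unfold zh em
  rw [_root_.map_mul, _root_.map_mul, _root_.map_inv, _root_.map_inv, mof, mof]
  rfl

theorem zc_step {α η : Type} (zz z : FreeGroup (α ⊕ η)) (w : FreeGroup α) (hl : η → α)
    (h : z = zz * jn η w) :
    (of (Sum.inr none) * (of (Sum.inl none))⁻¹ * (of (Sum.inr none))⁻¹ * em z *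
      of (Sum.inl none) : FreeGroup (Option α ⊕ Option η)) =
      zh (Option.map hl) none * em zz * jn (Option η) (inc w * xx α) := by
  have e : (jn (Option η) (xx α) : FreeGroup (Option α ⊕ Option η)) = of (Sum.inl none) := mof _ _
  rw [h, _root_.map_mul, _root_.map_mul, em_jn, e]
  simp only [zh, Option.map_none, mul_assoc]

theorem zc_eq (g : ℕ) : ∀ j, ∃ zz ∈ Subgroup.closure (Set.range (zh (hj g j))),
    zc g j = zz * jn (Ho j) (om g j)
  | 0 => ⟨1, one_mem _, (one_mul _).symm⟩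
  | j + 1 => by
    obtain ⟨zz, hzz, h⟩ := zc_eq g j
    let zz' : FreeGroup (Lt g (j + 1) ⊕ Ho (j + 1)) := em zz
    refine ⟨zh (hj g (j + 1)) (none : Option (Ho j)) * zz', mul_mem
      (Subgroup.subset_closure ⟨(none : Option (Ho j)), rfl⟩) ?_, ?_⟩
    · refine Subgroup.closure_induction (p := fun u _ => em u ∈
        Subgroup.closure (Set.range (zh (hj g (j + 1))))) ?_ ?_ ?_ ?_ hzz
      · rintro _ ⟨k, rfl⟩
        rw [em_zh]
        exact Subgroup.subset_closure ⟨(some k : Option (Ho j)), rfl⟩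
      · rw [_root_.map_one]; exact one_mem _
      · intro a b _ _ ha hb
        rw [_root_.map_mul]; exact mul_mem ha hb
      · intro a _ ha
        rw [_root_.map_inv]; exact inv_mem ha
    · exact zc_step zz (zc g j) (om g j) (hj g j) h

theorem rho_mem (g : ℕ) : ∀ j, jn (Ho j) (rho g j) ∈ hs (hj g j)
  | 0 => by
    change jn (Ho 0) (1 : FreeGroup (Lt g 0)) ∈ _
    rw [_root_.map_one]
    exact one_mem _
  | j + 1 => by
    change (jn (Option (Ho j)) (inc (rho g j) * xx (Lt g j)) :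
      FreeGroup (Option (Lt g j) ⊕ Option (Ho j))) ∈ hs (hj g (j + 1))
    have e : (jn (Option (Ho j)) (xx (Lt g j)) : FreeGroup (Option (Lt g j) ⊕ Option (Ho j))) =
        of (Sum.inl (hj g (j + 1) (none : Option (Ho j)))) := mof _ _
    rw [_root_.map_mul, ← em_jn, e]
    refine mul_mem ?_ (Subgroup.subset_closure ⟨_, rfl⟩)
    refine Subgroup.closure_induction (p := fun u _ => em u ∈ hs (hj g (j + 1))) ?_ ?_ ?_ ?_
      (rho_mem g j)
    · rintro _ ⟨k, rfl⟩
      exact Subgroup.subset_closure ⟨(some k : Option (Ho j)), rfl⟩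
    · rw [_root_.map_one]; exact one_mem _
    · intro a b _ _ ha hb
      rw [_root_.map_mul]; exact mul_mem ha hb
    · intro a _ ha
      rw [_root_.map_inv]; exact inv_mem ha

/-- the identification -/
theorem tht_of (h2 : THE) (K g : ℕ) {zz : FreeGroup (Lt g K ⊕ Ho K)}
    (hz : zc g K = zz * jn (Ho K) (om g K)) :
    ∃ T : Tht K g (hj g K) (om g K) zz (ij g K), ∀ i, T.ix i = hk K i := by
  obtain ⟨Θ, h1, h2, h3, h4⟩ := h2 g K
  refine ⟨{
    Th := Θ
    ix := Equiv.ofBijective (hk K) (hk_bij K)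
    tz := by rw [h1, hz]
    far0 := h4
    far1 := h3
    near := ⟨(jn (Ho K) (rho g K))⁻¹, inv_mem (rho_mem g K), fun l => ?_⟩ }, fun i => rfl⟩
  rw [h2, io_of, _root_.map_mul, _root_.map_mul, _root_.map_inv, mof, inv_inv]

/-! ### classes -/

theorem ev_ep {α : Type} [DecidableEq α] (u : FreeGroup α) (a : α) : ev u a = ep a u := by
  induction u using FreeGroup.induction_on with
  | C1 => rw [ev_one, ep_one]; rfl
  | of b =>
    rw [ev_of]
    by_cases h : b = a
    · subst h
      rw [ep_self, Pi.single_eq_same]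
    · rw [ep_ne h, Pi.single_eq_of_ne (Ne.symm h)]
  | inv_of b h => rw [ev_inv, ep_inv, Pi.neg_apply, h]
  | mul x y hx hy => rw [ev_mul, ep_mul, Pi.add_apply, hx, hy]

theorem ep_zpow {α : Type} (l : α) (u : FreeGroup α) (k : ℤ) : ep l (u ^ k) = k * ep l u := by
  unfold ep
  rw [_root_.map_zpow, toAdd_zpow, smul_eq_mul]

/-- normalised conjugator -/
theorem norm {α η : Type} {hl : η → α} {t : MulAut (FreeGroup α)} {h : η} {c : FreeGroup α}
    (hc : t (of (hl h)) = c * of (hl h) * c⁻¹) : ∃ c', t (of (hl h)) = c' * of (hl h) * c'⁻¹ ∧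
      ep (hl h) c' = 0 ∧ ∀ l, hl h ≠ l → ep l c' = ep l c := by
  refine ⟨c * of (hl h) ^ (-ep (hl h) c), ?_, ?_, fun l hl' => ?_⟩
  · rw [hc]; group
  · rw [ep_mul, ep_zpow, ep_self]; ring
  · rw [ep_mul, ep_zpow, ep_ne hl']; ring

/-- the framed extension fixes the closed-up holes -/
theorem fix_zh {α η : Type} {hl : η → α} {t : MulAut (FreeGroup α)}
    {Φ : MulAut (FreeGroup (α ⊕ η))} (h1 : ∀ u, Φ (jn η u) = jn η (t u)) {h : η} {c : FreeGroup α}
    (hc : t (of (hl h)) = c * of (hl h) * c⁻¹)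
    (h2 : Φ (of (Sum.inr h)) = of (Sum.inr h) * (jn η c)⁻¹) : Φ (zh hl h) = zh hl h := by
  have e : (of (Sum.inl (hl h)) : FreeGroup (α ⊕ η)) = jn η (of (hl h)) := by rw [mof]
  unfold zh
  rw [_root_.map_mul, _root_.map_mul, _root_.map_inv, _root_.map_inv, h2, e, h1, hc]
  simp only [_root_.map_mul, _root_.map_inv]
  group

/-- transport is multiplicative -/
theorem tr_mul {K g : ℕ} {α η : Type} {hl : η → α} {w : FreeGroup α} {zz : FreeGroup (α ⊕ η)}
    {nr : Fin 2 × Fin (g + 1) → α} (T : Tht K g hl w zz nr) (Φ Ψ : MulAut (FreeGroup (α ⊕ η)))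
    (h : Φ (zz * jn η w) = zz * jn η w) (h' : Ψ (zz * jn η w) = zz * jn η w)
    (h'' : (Φ * Ψ) (zz * jn η w) = zz * jn η w) : T.tr (Φ * Ψ) h'' = T.tr Φ h * T.tr Ψ h' :=
  Subtype.ext (_root_.map_mul (MulAut.congr T.Th.symm) Φ Ψ)

theorem tr_one {K g : ℕ} {α η : Type} {hl : η → α} {w : FreeGroup α} {zz : FreeGroup (α ⊕ η)}
    {nr : Fin 2 × Fin (g + 1) → α} (T : Tht K g hl w zz nr)
    (h'' : (1 : MulAut (FreeGroup (α ⊕ η))) (zz * jn η w) = zz * jn η w) : T.tr 1 h'' = 1 :=
  Subtype.ext (_root_.map_one (MulAut.congr T.Th.symm))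

/-! ### extensions of near mapping classes -/

theorem uj_io (g : ℕ) : ∀ (j : ℕ) (φ : MulAut (FreeGroup (Fin 2 × Fin (g + 1)))) (x),
    uj g j φ (io g j x) = io g j (φ x)
  | 0, _, _ => rfl
  | j + 1, φ, x => by
    change upE (sm (Lt g j)) (uj g j φ) (inc (io g j x)) = inc (io g j (φ x))
    rw [up_inc, uj_io g j φ x]

theorem uj_hj (g : ℕ) : ∀ (j : ℕ) (φ : MulAut (FreeGroup (Fin 2 × Fin (g + 1)))) (h : Ho j),
    uj g j φ (of (hj g j h)) = of (hj g j h)
  | 0, _, h => Empty.elim h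
  | j + 1, φ, none => up_x (uj g j φ)
  | j + 1, φ, some h => by
    change upE (sm (Lt g j)) (uj g j φ) (of (some (hj g j h))) = of (some (hj g j h))
    rw [← inc_of, up_inc, uj_hj g j φ h]

/-- **HOMQ** -/
theorem homq (h1 : FRM) (h2 : THE) : HOMQ := by
  classical
  intro K g
  have : Fintype (Lt g K) := Fintype.ofFinite _
  obtain ⟨zz, hzz, hz⟩ := zc_eq g K
  obtain ⟨T, hT⟩ := tht_of h2 K g hz
  have hb : ∀ h, hj g K h ≠ bj g K := fun h => by
    rw [bj_ij]; exact hj_ne_ij g K h _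
  obtain ⟨s, hs⟩ := h1 (Lt g K) (Ho K) inferInstance (hj g K) (hj_inj g K) (om g K) (bj g K) hb
  have hfix : ∀ φ : SS (hj g K) (om g K) (bj g K),
      s φ (zz * jn (Ho K) (om g K)) = zz * jn (Ho K) (om g K) := fun φ => by
    rw [_root_.map_mul, (hs φ).1]
    have e1 : (φ : MulAut (FreeGroup (Lt g K))) (om g K) = om g K := φ.2.1.1.1
    rw [e1]
    congr 1
    refine fix_closure (f := (s φ).toMonoidHom) ?_ hzz
    rintro _ ⟨h, rfl⟩
    obtain ⟨c, hc⟩ := φ.2.1.1.2 h
    obtain ⟨c', hc', hc0, -⟩ := norm hc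
    exact fix_zh (hs φ).1 hc' ((hs φ).2 h c' hc' hc0)
  refine ⟨MonoidHom.mk' (fun φ => T.tr (s φ) (hfix φ)) fun φ ψ => ?_, fun φ n hn => ?_,
    fun φ h => ?_⟩
  · have h3 : (s φ * s ψ) (zz * jn (Ho K) (om g K)) = zz * jn (Ho K) (om g K) := by
      rw [← _root_.map_mul]; exact hfix _
    rw [← tr_mul T (s φ) (s ψ) (hfix φ) (hfix ψ) h3]
    exact Subtype.ext (congrArg (MulAut.congr T.Th.symm) (_root_.map_mul s φ ψ))
  · have hc : ∀ h, ∃ c', (φ : MulAut (FreeGroup (Lt g K))) (of (hj g K h)) =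
        c' * of (hj g K h) * c'⁻¹ ∧ ep (hj g K h) c' = 0 ∧
        ∀ l, (∀ h', hj g K h' ≠ l) → ep l c' = n h * ep l (of (bj g K)) := fun h => by
      obtain ⟨c, hc, hcn⟩ := hn h
      obtain ⟨c', hc', h0, hc''⟩ := norm hc
      exact ⟨c', hc', h0, fun l hl => by rw [hc'' l (hl h), hcn l hl]⟩
    choose f hf hf0 hfn using hc
    obtain ⟨sig, h⟩ := T.isE_tr (hfix φ) (f := f) (m := n) (hs φ).1
      (fun h => (hs φ).2 h (f h) (hf h) (hf0 h)) (fun h => ⟨f h, hf h⟩)
      (fun u a ha => by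
        rw [Pi.sub_apply, ev_ep, ev_ep, φ.2.1.2 a ha, sub_self])
      (fun h a ha => by
        rw [Pi.sub_apply, Pi.smul_apply, ev_ep, ev_ep, hfn h a ha, bj_ij, smul_eq_mul, sub_self])
    refine ⟨sig, ?_⟩
    simp only [hT] at h
    exact h
  · have e : ∀ l, (s ⟨_, h⟩) (jn (Ho K) (of l)) = jn (Ho K) (uj g K
        ((φ : St (g + 1)) : MulAut (FF (g + 1))) (of l)) := fun l => (hs ⟨_, h⟩).1 (of l)
    refine T.tr_up (hfix ⟨_, h⟩) (φ : St (g + 1)) (fun l => ?_) (fun k => ?_) (fun k => ?_)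
    · have e1 := e (ij g K l)
      rw [mof, ← io_of, uj_io, io_map] at e1
      exact e1
    · have e1 := e (hj g K k)
      rw [mof, uj_hj, mof] at e1
      exact e1
    · have e1 := (hs ⟨_, h⟩).2 k 1 (by
        rw [one_mul, inv_one, mul_one]
        exact uj_hj g K _ k) (ep_one _)
      rw [_root_.map_one, inv_one, mul_one] at e1
      exact e1

/-- HOMQ from the framing alone -/
theorem homq_of_frm (h1 : FRM) : HOMQ := homq h1 H20.the

end Pool.Agent.TOW.H58
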